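import Mathlib
import Pool.Agent.Lib.MP_f59e5e_pr.Defs
import Pool.Agent.Lib.MP_f59e5e_pr.Main

/-!
# Oriented percolation games on `ℤ^2` without limit value

The state moves one unit upwards at each stage, and moreover one unit to the left if Player 1
proposes it and Player 2 accepts it. The environment is limit-periodic: for each scale `k` there
are parallel highways that move to the left with speed `2 ^ (-s (k + 1))`, and larger scales have
priority. On the highways of odd scale Player 1 earns one by not proposing, and on those of even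
scale Player 2 can refuse a proposal for free.
-/

namespace Pool.Agent.Results.MP_f59e5e_pr.NoLimitValue

open MeasureTheory Filter Topology
open Pool.Agent.Lib.MP_f59e5e_pr

/-- For every `ε < 1 / 2` there is an oriented percolation game on `ℤ^2` with two actions for each
player and payoffs in `{0, 1}` such that, for every state `z`, almost surely `v_n(z) ≥ 1 - ε` for
infinitely many `n` and `v_n(z) ≤ ε` for infinitely many `n`, so that `v_n(z)` diverges. In
particular the game has no limit value. -/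
theorem result (ε : ℝ) (hε : 0 < ε) (hε' : ε < 1 / 2) :
    ∃ Γ : PercolationGame 2, Γ.Oriented ∧ ¬ Γ.HasLimitValue ∧
      Nat.card Γ.I = 2 ∧ Nat.card Γ.J = 2 ∧
      (∀ ω z i j, Γ.payoff ω z i j = 0 ∨ Γ.payoff ω z i j = 1) ∧
      ∀ z, ∀ᵐ ω ∂Γ.P, (∃ᶠ n in atTop, 1 - ε ≤ Γ.value ω n z) ∧
        (∃ᶠ n in atTop, Γ.value ω n z ≤ ε) ∧
        ¬ ∃ l : ℝ, Tendsto (fun n => Γ.value ω n z) atTop (𝓝 l) := by
  obtain ⟨Γ, h1, h2, h3, h4, h5⟩ := exists_game hε
  have h6 : ∀ z, ∀ᵐ ω ∂Γ.P, (∃ᶠ n in atTop, 1 - ε ≤ Γ.value ω n z) ∧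
        (∃ᶠ n in atTop, Γ.value ω n z ≤ ε) ∧
        ¬ ∃ l : ℝ, Tendsto (fun n => Γ.value ω n z) atTop (𝓝 l) := by
    intro z
    filter_upwards [h5 z] with ω hω
    exact ⟨hω.1, hω.2, not_tendsto hε' hω.1 hω.2⟩
  refine ⟨Γ, h1, ?_, h2, h3, h4, h6⟩
  intro hlim
  obtain ⟨ω, hω1, hω2⟩ := ((hlim 0).and (h6 0)).exists
  exact hω2.2.2 hω1

end Pool.Agent.Results.MP_f59e5e_pr.NoLimitValue
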